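import Pool.Agent.H58.HN.TargetsT

/-!
# Monotone maps carry chain maps
-/

set_option autoImplicit false

noncomputable section

namespace Pool.Agent.H34.HN

open Classical
open Pool.Agent.H58.HN

private theorem bd_e {P : Type} [PartialOrder P] (s : Ch P) :
    bd (e s) = ∑ x ∈ s.1, sg s x • e (er s x) := by
  unfold bd
  have h : e s = Finsupp.single s (1 : ℚ) := rfl
  rw [h, Finsupp.linearCombination_single, one_smul]

private theorem e_mem {P : Type} [PartialOrder P] {A : Ch P → Prop} {t : Ch P} (h : A t) :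
    e t ∈ Sp A := Finsupp.single_mem_supported ℚ 1 h

private theorem Sp_mono {P : Type} [PartialOrder P] {A B : Ch P → Prop} (h : ∀ t, A t → B t) :
    Sp A ≤ Sp B := Finsupp.supported_mono (fun t ht => h t ht)

private theorem exists_max {P : Type} [PartialOrder P] (s : Ch P) (h : s.1.Nonempty) :
    ∃ m ∈ s.1, ∀ y ∈ s.1, y ≤ m := by
  obtain ⟨m, hm⟩ := s.1.exists_maximal h
  refine ⟨m, hm.1, fun y hy => ?_⟩
  rcases eq_or_ne y m with rfl | hne
  · exact le_rfl
  · rcases s.2 (Finset.mem_coe.2 hy) (Finset.mem_coe.2 hm.1) hne with h1 | h1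
    · exact h1
    · exact hm.2 hy h1

private theorem bd_nil {P : Type} [PartialOrder P] : bd (e (nil : Ch P)) = 0 := by
  rw [bd_e]
  exact Finset.sum_empty

private theorem bd_pt {P : Type} [PartialOrder P] (x : P) : bd (e (pt x)) = e (nil : Ch P) := by
  rw [bd_e]
  have h1 : (pt x : Ch P).1 = {x} := rfl
  rw [h1, Finset.sum_singleton]
  have h2 : sg (pt x) x = 1 := by
    unfold sg
    have h3 : (pt x : Ch P).1.filter (fun y => y < x) = ∅ := by
      rw [h1, Finset.filter_singleton, if_neg (lt_irrefl x)]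
    rw [h3, Finset.card_empty, pow_zero]
  have h4 : er (pt x) x = (nil : Ch P) := by
    apply Subtype.ext
    show ({x} : Finset P).erase x = ∅
    simp
  rw [h2, h4, one_smul]

theorem pf_TD (hA : T_TA) (hB : T_TB) (hC : T_TC) : T_TD := by
  intro P Q _ _ f
  let b : Module.Basis (Ch P) ℚ (CG P) := Finsupp.basisSingleOne
  have hb : ∀ s, b s = e s := fun s => by
    show Finsupp.basisSingleOne s = Finsupp.single s (1 : ℚ)
    rw [Finsupp.coe_basisSingleOne]
  let K : Ch P → Submodule ℚ (CG Q) := fun s => Sp fun t : Ch Q => t.1.card = s.1.card ∧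
    ∀ y ∈ t.1, ∃ x ∈ s.1, y ≤ f x
  let L : Ch P → Submodule ℚ (CG Q) := fun s => Sp fun t : Ch Q => t.1.card + 1 = s.1.card ∧
    ∀ y ∈ t.1, ∃ x ∈ s.1, y ≤ f x
  let f₀ : CG P →ₗ[ℚ] CG Q := Finsupp.linearCombination ℚ (fun _ => e nil)
  have hf₀ : ∀ c, bd (f₀ c) = 0 := by
    intro c
    show bd (Finsupp.linearCombination ℚ (fun _ => e nil) c) = 0
    rw [Finsupp.linearCombination_apply, Finsupp.sum, map_sum]
    refine Finset.sum_eq_zero fun s _ => ?_
    rw [map_smul, bd_nil, smul_zero]
  have hf₀e : ∀ s, f₀ (e s) = e nil := by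
    intro s
    show Finsupp.linearCombination ℚ (fun _ => e nil) (Finsupp.single s (1 : ℚ)) = e nil
    rw [Finsupp.linearCombination_single, one_smul]
  obtain ⟨Φ, h1, h2, h3⟩ := hC (Ch P) (CG P) (CG Q) b (fun s => s.1.card) 0 bd bd 0 1 f₀ K L
    (by
      intro s _
      rw [hb, bd_e]
      refine Submodule.sum_mem _ fun x hx => Submodule.smul_mem _ _ (Submodule.subset_span ?_)
      have hc : (er s x).1.card + 1 = s.1.card := Finset.card_erase_add_one hx
      refine ⟨er s x, (hb _).symm, hc, ?_⟩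
      refine Sp_mono fun t ht => ⟨?_, fun y hy => ?_⟩
      · rw [ht.1]
        exact hc
      · obtain ⟨x', hx', hy'⟩ := ht.2 y hy
        exact ⟨x', Finset.mem_of_mem_erase hx', hy'⟩)
    (by
      intro s _
      rw [LinearMap.zero_apply]
      exact Submodule.zero_mem _)
    (by
      intro s _
      refine ⟨?_, ?_⟩
      · rw [hA]
      · simp)
    (by
      intro s _
      rw [LinearMap.zero_apply, zero_add, one_smul]
      exact hf₀ _)
    (by
      intro s hs c hc hc0
      obtain ⟨m, hm, hmax⟩ := exists_max s (Finset.card_pos.mp hs)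
      obtain ⟨y, hy, hyc⟩ := hB Q (f m) (s.1.card - 1) c (Sp_mono (fun t ht => ⟨by
          have := ht.1
          omega, fun y hy => by
          obtain ⟨x, hx, hyx⟩ := ht.2 y hy
          exact hyx.trans (f.mono (hmax x hx))⟩) hc) hc0
      refine ⟨y, Sp_mono (fun t ht => ⟨?_, fun z hz => ⟨m, hm, ht.2 z hz⟩⟩) hy, hyc⟩
      have := ht.1
      omega)
    (by
      intro s hs
      rw [hb, hf₀e]
      refine e_mem ⟨?_, fun y hy => ?_⟩
      · have h4 : (nil : Ch Q).1.card = 0 := rfl
        rw [h4]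
        omega
      · exact absurd hy (Finset.notMem_empty y))
  refine ⟨Φ, fun s _ => ?_, fun s hs => ?_, fun x => ?_⟩
  · have := h2 s
    rw [hb] at this
    exact this
  · have := h3 s (by omega)
    rw [hb, LinearMap.zero_apply, zero_add, one_smul] at this
    exact this
  · have h4 := h3 (pt x) (by
      show 0 < ({x} : Finset P).card
      simp)
    rw [hb, LinearMap.zero_apply, zero_add, one_smul, bd_pt] at h4
    rw [h4]
    have h5 := h1 nil (by exact le_refl 0)
    rw [hb, hf₀e] at h5
    exact h5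

end Pool.Agent.H34.HN
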