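import Pool.Agent.H58.HN.TargetsT

/-!
# Chain maps carried by the same monotone map agree up to boundaries
-/

set_option autoImplicit false

noncomputable section

namespace Pool.Agent.H34.HN

open Classical
open Pool.Agent.H58.HN

private theorem bd_e' {P : Type} [PartialOrder P] (s : Ch P) :
    bd (e s) = ∑ x ∈ s.1, sg s x • e (er s x) := by
  unfold bd
  have h : e s = Finsupp.single s (1 : ℚ) := rfl
  rw [h, Finsupp.linearCombination_single, one_smul]

private theorem Sp_mono' {P : Type} [PartialOrder P] {A B : Ch P → Prop} (h : ∀ t, A t → B t) :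
    Sp A ≤ Sp B := Finsupp.supported_mono (fun t ht => h t ht)

private theorem exists_max' {P : Type} [PartialOrder P] (s : Ch P) (h : s.1.Nonempty) :
    ∃ m ∈ s.1, ∀ y ∈ s.1, y ≤ m := by
  obtain ⟨m, hm⟩ := s.1.exists_maximal h
  refine ⟨m, hm.1, fun y hy => ?_⟩
  rcases eq_or_ne y m with rfl | hne
  · exact le_rfl
  · rcases s.2 (Finset.mem_coe.2 hy) (Finset.mem_coe.2 hm.1) hne with h1 | h1
    · exact h1
    · exact hm.2 hy h1

private theorem Sp_span {P : Type} [PartialOrder P] (A : Ch P → Prop) :
    Sp A = Submodule.span ℚ {x | ∃ s, A s ∧ x = e s} := by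
  unfold Sp
  rw [Finsupp.supported_eq_span_single]
  congr 1
  ext x
  constructor
  · rintro ⟨s, hs, rfl⟩
    exact ⟨s, hs, rfl⟩
  · rintro ⟨s, hs, rfl⟩
    exact ⟨s, hs, rfl⟩

theorem pf_TE (hA : T_TA) (hB : T_TB) (hC : T_TC) : T_TE := by
  intro P Q _ _ f Φ Φ' hΦ hΦ' n hn z hz hz0
  let b : Module.Basis (Ch P) ℚ (CG P) := Finsupp.basisSingleOne
  have hb : ∀ s, b s = e s := fun s => by
    show Finsupp.basisSingleOne s = Finsupp.single s (1 : ℚ)
    rw [Finsupp.coe_basisSingleOne]
  let K : Ch P → Submodule ℚ (CG Q) := fun s => Sp fun t : Ch Q => t.1.card = s.1.card + 1 ∧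
    ∀ y ∈ t.1, ∃ x ∈ s.1, y ≤ f x
  let L : Ch P → Submodule ℚ (CG Q) := fun s => Sp fun t : Ch Q => t.1.card = s.1.card ∧
    ∀ y ∈ t.1, ∃ x ∈ s.1, y ≤ f x
  obtain ⟨h, -, h2, h3⟩ := hC (Ch P) (CG P) (CG Q) b (fun s => s.1.card) 0 bd bd (Φ - Φ') (-1) 0 K L
    (by
      intro s _
      rw [hb, bd_e']
      refine Submodule.sum_mem _ fun x hx => Submodule.smul_mem _ _ (Submodule.subset_span ?_)
      have hc : (er s x).1.card + 1 = s.1.card := Finset.card_erase_add_one hx
      refine ⟨er s x, (hb _).symm, hc, ?_⟩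
      refine Sp_mono' fun t ht => ⟨?_, fun y hy => ?_⟩
      · rw [ht.1]
        exact hc
      · obtain ⟨x', hx', hy'⟩ := ht.2 y hy
        exact ⟨x', Finset.mem_of_mem_erase hx', hy'⟩)
    (by
      intro s hs
      rw [hb, LinearMap.sub_apply]
      have hne : s.1.Nonempty := Finset.card_pos.mp hs
      exact Submodule.sub_mem _ (hΦ.car s hne) (hΦ'.car s hne))
    (by
      intro s hs
      rw [hb]
      refine ⟨hA P _, ?_⟩
      rw [LinearMap.sub_apply, LinearMap.sub_apply, map_sub, hΦ.com s (by omega),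
        hΦ'.com s (by omega), neg_one_smul, add_neg_cancel])
    (by
      intro s hs
      rw [hb, LinearMap.zero_apply, smul_zero, add_zero, LinearMap.sub_apply, map_sub]
      obtain ⟨x, hx⟩ := Finset.card_eq_one.mp (show s.1.card = 1 from hs)
      have hsx : s = pt x := Subtype.ext hx
      rw [hsx, hΦ.aug, hΦ'.aug, sub_self])
    (by
      intro s hs c hc hc0
      obtain ⟨m, hm, hmax⟩ := exists_max' s (Finset.card_pos.mp hs)
      obtain ⟨y, hy, hyc⟩ := hB Q (f m) s.1.card c (Sp_mono' (fun t ht => ⟨ht.1, fun y hy => by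
          obtain ⟨x, hx, hyx⟩ := ht.2 y hy
          exact hyx.trans (f.mono (hmax x hx))⟩) hc) hc0
      exact ⟨y, Sp_mono' (fun t ht => ⟨ht.1, fun z hz => ⟨m, hm, ht.2 z hz⟩⟩) hy, hyc⟩)
    (by
      intro s _
      rw [LinearMap.zero_apply]
      exact Submodule.zero_mem _)
  refine ⟨h z, ?_, ?_⟩
  · -- degree
    have key : ∀ w ∈ G P n, h w ∈ G Q (n + 1) := by
      intro w hw
      unfold G at hw ⊢
      rw [Sp_span] at hw
      induction hw using Submodule.span_induction with
      | mem x hx =>
        obtain ⟨s, hs, rfl⟩ := hx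
        have h4 := h2 s
        rw [hb] at h4
        refine Sp_mono' (fun t ht => ?_) h4
        rw [ht.1, hs]
      | zero =>
        rw [map_zero]
        exact Submodule.zero_mem _
      | add x y _ _ hx hy =>
        rw [map_add]
        exact Submodule.add_mem _ hx hy
      | smul a x _ hx =>
        rw [map_smul]
        exact Submodule.smul_mem _ _ hx
    exact key z hz
  · have key : ∀ w ∈ G P n, bd (h w) = Φ w - Φ' w + (-1 : ℚ) • h (bd w) := by
      intro w hw
      unfold G at hw
      rw [Sp_span] at hw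
      induction hw using Submodule.span_induction with
      | mem x hx =>
        obtain ⟨s, hs, rfl⟩ := hx
        have h4 := h3 s (by omega)
        rw [hb, LinearMap.sub_apply] at h4
        exact h4
      | zero => simp
      | add x y _ _ hx hy =>
        rw [map_add, map_add, hx, hy, map_add, map_add, map_add, map_add, smul_add]
        abel
      | smul a x _ hx =>
        rw [map_smul, map_smul, hx, map_smul, map_smul, map_smul, map_smul, smul_add, smul_sub,
          smul_comm a]
    rw [key z hz, hz0, map_zero, smul_zero, add_zero]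

end Pool.Agent.H34.HN
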